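import Pool.Agent.H14R2.LL.Defs
import Pool.Agent.H14R2.LL.S.TREH
import Pool.Agent.H14R2.RD.AMP4
import Pool.Agent.H232R2.TE.SFEN
import Pool.Agent.H14R2.RC.S.TYPESLVL
import Pool.Agent.H14R2.RC.S.CONJS

/-! Task ZEH of the project LL (MP_75608d_al). -/

set_option autoImplicit false

namespace LL14
open RC14 RC852 TE852 Finset Equiv
open scoped InnerProductSpace

namespace ZEHx

section
variable {G : Type*} [Group G] [Fintype G]
variable {V : Type*} [NormedAddCommGroup V] [InnerProductSpace ℂ V] [FiniteDimensional ℂ V]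

/-- the energy -/
noncomputable def EZ (ρ : G →* (V ≃ₗᵢ[ℂ] V)) {a R : ℕ} (x : Fin a → G) (b : Fin 1 → G) (M d : ℕ)
    (z : Fin R → Fin 2 → G) (v : V) : ℝ :=
  24 * (En ρ b v + 3 / 2 * ((M : ℝ) / (d + 1)) / a * En ρ x v) + 5 * ∑ i, En ρ (z i) v

omit [Fintype G] [FiniteDimensional ℂ V] in
lemma isEn_EZ (ρ : G →* (V ≃ₗᵢ[ℂ] V)) {a R : ℕ} (x : Fin a → G) (b : Fin 1 → G) (M d : ℕ)
    (z : Fin R → Fin 2 → G) : IsEn ρ (EZ ρ x b M d z) :=
  (((IsEn.en ρ b).add ((IsEn.en ρ x).smul (3 / 2 * ((M : ℝ) / (d + 1)) / a)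
    (by positivity))).smul 24 (by norm_num)).add
    ((IsEn.sum Finset.univ (fun i => En ρ (z i)) fun i => IsEn.en ρ (z i)).smul 5 (by norm_num))

/-- one irreducible component -/
lemma one (ρ : G →* (V ≃ₗᵢ[ℂ] V)) (W : Submodule ℂ V) (hW : Irr ρ W) (a M d : ℕ) (ha : 1 ≤ a)
    (hd : d ≤ M) (x : Fin a → G) (b : Fin 1 → G) (L : ℕ) (Λ : ℝ) (hΛ : 32 ≤ Λ)
    (hη : (8 / 7 : ℝ) ^ (2 * L) * rtr (SF (V := W) (res ρ W hW.2.1) x b M d ^ (2 * L)) ≤
      Real.exp (-Λ) * Module.finrank ℂ W) (R : ℕ)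
    (hdim : (Module.finrank ℂ W : ℝ) < Real.exp (Λ * (2 : ℝ) ^ R / 16)) :
    (Nat.card {z : Fin R → Fin 2 → G // ¬ ∀ v ∈ W, 1 * ‖v‖ ^ 2 ≤ EZ ρ x b M d z v} : ℝ) ≤
      R * Real.exp (-(Λ * 2 / 64)) * (Fintype.card G : ℝ) ^ (R * 2) := by
  have hpos : (0 : ℝ) < (8 / 7 : ℝ) ^ (2 * L) := by positivity
  have hη2 : rtr (SF (V := W) (res ρ W hW.2.1) x b M d ^ (2 * L)) ≤
      (((8 / 7 : ℝ) ^ (2 * L))⁻¹ * Real.exp (-Λ)) * Module.finrank ℂ W := by
    rw [mul_assoc, inv_mul_eq_div, le_div_iff₀ hpos, mul_comm]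
    exact hη
  obtain ⟨h1, h2, h3⟩ := SFEN (V := W) ha (le_refl 1) (res ρ W hW.2.1) x b M d hd
  have h := AMP4 (V := W) (res ρ W hW.2.1) (RC14.AMP1.irr_res ρ W hW)
    (SF (V := W) (res ρ W hW.2.1) x b M d) h1 h2 (7 / 8) (by norm_num) (by norm_num) L _ hη2 2 R
    (le_refl 2) Λ hΛ (by
      rw [show (1 / (7 / 8) : ℝ) = 8 / 7 by norm_num, ← mul_assoc, mul_inv_cancel₀ hpos.ne',
        one_mul]) (by push_cast; exact hdim)
  have hE : ∀ {ι : Type} [Fintype ι] (y : ι → G) (w : W),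
      En (res ρ W hW.2.1) y w = En ρ y (w : V) := by
    intro ι _ y w
    unfold En
    apply Finset.sum_congr rfl
    intro i _
    rw [Submodule.coe_norm, Submodule.coe_sub, res_apply]
  have hmono := card_mono (Z := Fin R → Fin 2 → G)
    (fun z => ¬ ∀ v ∈ W, 1 * ‖v‖ ^ 2 ≤ EZ ρ x b M d z v)
    (fun z => ¬ ∀ v : W, ‖v‖ ^ 2 ≤ 3 / (1 - 7 / 8 : ℝ) *
      (‖v‖ ^ 2 - (⟪SF (V := W) (res ρ W hW.2.1) x b M d v, v⟫_ℂ).re) +
          10 / ((2 : ℕ) : ℝ) * ∑ r, En (res ρ W hW.2.1) (z r) v) (by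
      intro z hz hcon
      apply hz
      intro v hv
      have e1 := hcon ⟨v, hv⟩
      have e2 := h3 ⟨v, hv⟩
      simp only [hE] at e1 e2
      rw [Submodule.coe_norm] at e1 e2
      simp only at e1 e2
      unfold EZ
      norm_num at e1 e2 ⊢
      linarith)
  refine (Nat.cast_le.mpr hmono).trans (h.trans (le_of_eq ?_))
  push_cast
  rfl

end

/-- one level -/
lemma lev (n j a M d R : ℕ) (hj : 2 * j + 2 ≤ n) (ha : 1 ≤ a) (hd : d ≤ M) (x : Fin a → Alt n)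
    (b : Fin 1 → Alt n) (L : ℕ) (Λ : ℝ) (hΛ : 32 ≤ Λ)
    (hη : ∀ (W : Submodule ℂ (V j n)) (hW : Irr (repA j n) W), W ≤ Lvl j n →
      (8 / 7 : ℝ) ^ (2 * L) * rtr (SF (V := W) (res (repA j n) W hW.2.1) x b M d ^ (2 * L)) ≤
        Real.exp (-Λ) * Module.finrank ℂ W)
    (hdim : ((n : ℝ)) ^ j < Real.exp (Λ * (2 : ℝ) ^ R / 16)) :
    (Nat.card {z : Fin R → Fin 2 → Alt n // ¬ ∀ v ∈ Lvl j n,
        1 * ‖v‖ ^ 2 ≤ EZ (repA j n) x b M d z v} : ℝ) ≤
      Real.exp (3 * Real.sqrt j) * (R * Real.exp (-(Λ * 2 / 64))) *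
        (Fintype.card (Alt n) : ℝ) ^ (R * 2) := by
  have h := UBG (repA j n) (Lvl j n) _ (TYPESLVL j n hj)
    (Z := Fin R → Fin 2 → Alt n) (fun z v => EZ (repA j n) x b M d z v)
    (fun z => isEn_EZ (repA j n) x b M d z) 1
    (R * Real.exp (-(Λ * 2 / 64)) * (Fintype.card (Alt n) : ℝ) ^ (R * 2))
    (by positivity) ?_
  · refine h.trans ?_
    have := CONJS j
    have h0 : 0 ≤ R * Real.exp (-(Λ * 2 / 64)) *
      (Fintype.card (Alt n) : ℝ) ^ (R * 2) := by positivity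
    calc _ ≤ Real.exp (3 * Real.sqrt j) * (R * Real.exp (-(Λ * 2 / 64)) *
        (Fintype.card (Alt n) : ℝ) ^ (R * 2)) := mul_le_mul_of_nonneg_right this h0
      _ = _ := by ring
  · intro W hW hWL
    refine one (repA j n) W hW a M d ha hd x b L Λ hΛ (hη W hW hWL) R ?_
    refine lt_of_le_of_lt ?_ hdim
    exact_mod_cast finrank_le_pow W

end ZEHx

open ZEHx in
/-- the letters `z` are good with probability `1 - 1/n` -/
theorem ZEH : ∃ G0 : ℕ, ∀ G : ℕ, G0 ≤ G → ∀ n r R : ℕ, 1 ≤ r → (Real.log n) ^ 2 ≤ r →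
    r * G ^ 256 ≤ n → 33 * Real.log n ≤ 2 ^ R * Real.log G → R ≤ n →
    ∀ (a M d : ℕ) (x : Fin a → Alt n) (b : Fin 1 → Alt n), 1 ≤ a → d ≤ M →
    NF M d ≤ (G : ℝ) ^ ((1 / 1024 : ℝ) * r) → GoodH G r (gx (lz x) M) (cb b) →
    (Nat.card {z : Fin R → Fin 2 → Alt n // ¬ ∀ j, r ≤ j → j ≤ r * G ^ 8 → ∀ v ∈ Lvl j n,
        1 * ‖v‖ ^ 2 ≤
          24 * (En (repA j n) b v + 3 / 2 * ((M : ℝ) / (d + 1)) / a * En (repA j n) x v) +
            5 * ∑ i, En (repA j n) (z i) v} : ℝ) ≤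
      1 / (n : ℝ) * (Fintype.card (Alt n) : ℝ) ^ (R * 2) := by
  obtain ⟨G1, hG1⟩ := TREH
  refine ⟨max G1 (max 2 ⌈Real.exp 384⌉₊), ?_⟩
  intro G hG n r R hr hlog hrn hR hRn a M d x b ha hd hNF hgood
  have hGG1 : G1 ≤ G := (le_max_left _ _).trans hG
  have hG2 : 2 ≤ G := ((le_max_left _ _).trans (le_max_right _ _)).trans hG
  have hG3 : ⌈Real.exp 384⌉₊ ≤ G := ((le_max_right _ _).trans (le_max_right _ _)).trans hG
  have hG0 : (0 : ℝ) < G := by exact_mod_cast (by omega : 0 < G)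
  have hlG : 384 ≤ Real.log G := by
    rw [Real.le_log_iff_exp_le hG0]
    exact (Nat.le_ceil _).trans (by exact_mod_cast hG3)
  have hGp : ∀ k : ℕ, 1 ≤ G ^ k := fun k => Nat.one_le_pow _ _ (by omega)
  have hG256n : G ^ 256 ≤ n := (Nat.le_mul_of_pos_left _ hr).trans hrn
  have hn1 : 1 ≤ n := (hGp 256).trans hG256n
  have hn0 : (0 : ℝ) < n := by exact_mod_cast hn1
  have hln : 256 * Real.log G ≤ Real.log n := by
    have h1 : ((G : ℝ)) ^ 256 ≤ n := by exact_mod_cast hG256n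
    have h2 := Real.log_le_log (by positivity) h1
    rw [Real.log_pow] at h2
    push_cast at h2
    exact h2
  have hln1 : 1000 ≤ Real.log n := by linarith
  have hlr : Real.log n ≤ r := by nlinarith
  have hr1000 : 1000 ≤ r := by
    have : (1000 : ℝ) ≤ r := hln1.trans hlr
    exact_mod_cast this
  -- one level
  set A : ℝ := (Fintype.card (Alt n) : ℝ) with hA
  have hA0 : 0 < A := by rw [hA]; exact_mod_cast Fintype.card_pos
  have hG8 : 4 * G ^ 8 ≤ G ^ 256 := by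
    have e : G ^ 256 = G ^ 2 * (G ^ 246 * G ^ 8) := by
      rw [← pow_add, ← pow_add]
    rw [e]
    have h1 : 2 ^ 2 ≤ G ^ 2 := Nat.pow_le_pow_left hG2 2
    calc 4 * G ^ 8 = 2 ^ 2 * (1 * G ^ 8) := by ring
      _ ≤ G ^ 2 * (G ^ 246 * G ^ 8) := Nat.mul_le_mul h1 (Nat.mul_le_mul_right _ (hGp 246))
  have h4n : 4 * (r * G ^ 8) ≤ n := by
    calc 4 * (r * G ^ 8) = r * (4 * G ^ 8) := by ring
      _ ≤ r * G ^ 256 := Nat.mul_le_mul_left r hG8
      _ ≤ n := hrn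
  have hrG : 1 ≤ r * G ^ 8 := Nat.mul_le_mul hr (hGp 8)
  have hlev : ∀ j ∈ Finset.Icc r (r * G ^ 8),
      (Nat.card {z : Fin R → Fin 2 → Alt n // ¬ ∀ v ∈ Lvl j n,
        1 * ‖v‖ ^ 2 ≤ EZ (repA j n) x b M d z v} : ℝ) ≤
      1 / (n : ℝ) ^ 2 * A ^ (R * 2) := by
    intro j hj
    rw [Finset.mem_Icc] at hj
    have hj1 : 1 ≤ j := hr.trans hj.1
    have hjR : (1 : ℝ) ≤ j := by exact_mod_cast hj1
    have hjr : (r : ℝ) ≤ j := by exact_mod_cast hj.1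
    have h1 := lev n j a M d R (by omega) ha hd x b (LL r j) (j * Real.log G / 2)
      (by nlinarith) (fun W hW hWL => hG1 G hGG1 n r hr1000 hrn a M d x b ha hd hNF hgood j hj.1
        hj.2 W hW hWL) (by
        have e1 : (n : ℝ) ^ j = Real.exp (j * Real.log n) := by
          rw [Real.exp_nat_mul, Real.exp_log hn0]
        rw [e1]
        apply Real.exp_lt_exp.2
        have e2 : (j : ℝ) * Real.log G / 2 * 2 ^ R / 16 = j * (2 ^ R * Real.log G) / 32 := by ring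
        rw [e2]
        have e3 : (j : ℝ) * (33 * Real.log n) ≤ j * (2 ^ R * Real.log G) :=
          mul_le_mul_of_nonneg_left hR (by positivity)
        have e4 : 0 < (j : ℝ) * Real.log n := by
          apply mul_pos <;> linarith
        linarith)
    refine h1.trans ?_
    refine mul_le_mul_of_nonneg_right ?_ (by positivity)
    have hsq : Real.sqrt j ≤ j := by
      rw [Real.sqrt_le_left (by linarith)]
      nlinarith
    have hRR : (R : ℝ) ≤ n := by exact_mod_cast hRn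
    have e5 : Real.exp (3 * Real.sqrt j) * (R * Real.exp (-(j * Real.log G / 2 * 2 / 64))) ≤
        Real.exp (3 * j) * (n * Real.exp (-(6 * j))) := by
      refine mul_le_mul (Real.exp_le_exp.2 (by linarith)) ?_ (by positivity) (by positivity)
      refine mul_le_mul hRR (Real.exp_le_exp.2 ?_) (by positivity) (by positivity)
      nlinarith
    refine e5.trans ?_
    have e6 : Real.exp (3 * j) * (n * Real.exp (-(6 * j))) = n * Real.exp (-(3 * j)) := by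
      rw [mul_comm (n : ℝ), ← mul_assoc, ← Real.exp_add, mul_comm]
      congr 2
      ring
    rw [e6]
    have e7 : Real.exp (-(3 * j)) ≤ 1 / (n : ℝ) ^ 3 := by
      have e8 : 1 / (n : ℝ) ^ 3 = Real.exp (-(3 * Real.log n)) := by
        rw [Real.exp_neg, one_div, show (3 : ℝ) * Real.log n = ((3 : ℕ) : ℝ) * Real.log n by
          norm_num, Real.exp_nat_mul, Real.exp_log hn0]
      rw [e8]
      apply Real.exp_le_exp.2
      linarith
    calc (n : ℝ) * Real.exp (-(3 * j)) ≤ n * (1 / (n : ℝ) ^ 3) := by gcongr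
      _ = 1 / (n : ℝ) ^ 2 := by field_simp
  -- all levels
  have step : Nat.card {z : Fin R → Fin 2 → Alt n // ¬ ∀ j, r ≤ j → j ≤ r * G ^ 8 →
        ∀ v ∈ Lvl j n, 1 * ‖v‖ ^ 2 ≤
          24 * (En (repA j n) b v + 3 / 2 * ((M : ℝ) / (d + 1)) / a * En (repA j n) x v) +
            5 * ∑ i, En (repA j n) (z i) v} ≤
      ∑ j ∈ Finset.Icc r (r * G ^ 8), Nat.card {z : Fin R → Fin 2 → Alt n // ¬ ∀ v ∈ Lvl j n,
        1 * ‖v‖ ^ 2 ≤ EZ (repA j n) x b M d z v} := by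
    apply RC14.card_union_fin
    intro z hz
    by_contra hcon
    push Not at hcon
    exact hz fun j h1 h2 => hcon j (Finset.mem_Icc.mpr ⟨h1, h2⟩)
  have hcard : ((Finset.Icc r (r * G ^ 8)).card : ℝ) ≤ n := by
    rw [Nat.card_Icc]
    exact_mod_cast (show r * G ^ 8 + 1 - r ≤ n by omega)
  calc (Nat.card {z : Fin R → Fin 2 → Alt n // ¬ ∀ j, r ≤ j → j ≤ r * G ^ 8 →
        ∀ v ∈ Lvl j n, 1 * ‖v‖ ^ 2 ≤
          24 * (En (repA j n) b v + 3 / 2 * ((M : ℝ) / (d + 1)) / a * En (repA j n) x v) +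
            5 * ∑ i, En (repA j n) (z i) v} : ℝ)
      ≤ ∑ j ∈ Finset.Icc r (r * G ^ 8),
        (Nat.card {z : Fin R → Fin 2 → Alt n // ¬ ∀ v ∈ Lvl j n,
        1 * ‖v‖ ^ 2 ≤ EZ (repA j n) x b M d z v} : ℝ) := by
        exact_mod_cast step
    _ ≤ ∑ _j ∈ Finset.Icc r (r * G ^ 8), 1 / (n : ℝ) ^ 2 * A ^ (R * 2) :=
        Finset.sum_le_sum hlev
    _ = ((Finset.Icc r (r * G ^ 8)).card : ℝ) * (1 / (n : ℝ) ^ 2 * A ^ (R * 2)) := by
        rw [Finset.sum_const, nsmul_eq_mul]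
    _ ≤ (n : ℝ) * (1 / (n : ℝ) ^ 2 * A ^ (R * 2)) := by
        gcongr
    _ = 1 / (n : ℝ) * A ^ (R * 2) := by
        field_simp

end LL14
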